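import Pool.Agent.H620R2.GaugeQ.Q1
import Pool.Agent.H620R2.Gauge.Upper
import Pool.Agent.H620R2.Gauge2.Trans

/-! # `BQP` contains the reductions to the oracle (task Q7, helper684) -/

namespace Pool.Agent.H620R2.Gauge

open Pool.Agent.NPC Finset H568R2 Pool.Agent.H676 Pool.Agent.H622R2

/-- basis state -/
noncomputable def bst {m : ℕ} (s0 : Fin m → Bool) : (Fin m → Bool) → ℝ :=
  fun s => if s = s0 then 1 else 0

theorem bst_flip {m : ℕ} (c : (Fin m → Bool) → Bool) (k : ℕ) (s0 : Fin m → Bool) :
    (fun s => bst s0 (flipIf c k s)) = bst (flipIf c k s0) := by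
  funext s
  unfold bst
  have h : flipIf c k s = s0 ↔ s = flipIf c k s0 := by
    constructor
    · intro h; rw [← h, flipIf_involutive c k s]
    · intro h; rw [h, flipIf_involutive c k s0]
  simp only [h]

theorem circAct_append (A : Oracle) {m : ℕ} : ∀ (l l' : List Gate) (ψ : (Fin m → Bool) → ℝ),
    circAct A (l ++ l') ψ = circAct A l' (circAct A l ψ)
  | [], _, _ => rfl
  | g :: l, l', ψ => circAct_append A l l' (gateAct A g ψ)

/-- the not gate of position `i` -/
def notG (y : List Bool) (i : ℕ) : Gate :=
  Sum.inr (false, [], if y.getD i false then i + 1 else y.length + 1)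

/-- the circuit asking the question `y` -/
def askC (y : List Bool) : List Unit × List Gate :=
  (() :: y.map (fun _ => ()), (List.range y.length).map (notG y) ++
    [Sum.inr (true, (List.range y.length).map (fun i => i + 1), 0)])

theorem poly_askC : Poly askC := by
  have hl : Poly (fun y : List Bool => y.length) := Poly.length Poly.id
  have hr : Poly (fun y : List Bool => List.range y.length) := Poly.range_length Poly.id
  have h1 : Poly (fun y : List Bool => (() :: y.map (fun _ => ()) : List Unit)) :=
    Poly.cons (NPC.Poly.const ()) (NPC.Poly.map (F := fun _ _ => ()) Poly.id (NPC.Poly.const ()))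
  have hF : Poly (fun p : List Bool × ℕ => notG p.1 p.2) := by
    unfold notG
    refine Poly.inr (Poly.pair (NPC.Poly.const false) (Poly.pair (NPC.Poly.const ([] : List ℕ)) ?_))
    refine Poly.ite (p := fun p : List Bool × ℕ => p.1.getD p.2 false = true)
      (Poly.decide_bool (Poly.getD (Poly.fst Poly.id) (Poly.snd Poly.id) (NPC.Poly.const false)))
      (Poly.succ (Poly.snd Poly.id)) (Poly.succ (Poly.length (Poly.fst Poly.id)))
  have h2 : Poly (fun y : List Bool => (List.range y.length).map (notG y)) := NPC.Poly.map hr hF
  have h3 : Poly (fun y : List Bool => (List.range y.length).map (fun i => i + 1)) :=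
    NPC.Poly.map (F := fun _ i => i + 1) hr (Poly.succ (Poly.snd Poly.id))
  have h4 : Poly (fun y : List Bool =>
      (Sum.inr (true, (List.range y.length).map (fun i => i + 1), 0) : Gate)) :=
    Poly.inr (Poly.pair (NPC.Poly.const true) (Poly.pair h3 (NPC.Poly.const 0)))
  exact Poly.pair h1 (Poly.append h2 (Poly.cons h4 (NPC.Poly.const [])))

/-- state after `j` not gates -/
def stJ (y : List Bool) {m : ℕ} (j : ℕ) : Fin m → Bool :=
  fun i => decide (1 ≤ i.1 ∧ i.1 ≤ j) && y.getD (i.1 - 1) false

theorem act_nots (A : Oracle) (y : List Bool) : ∀ j ≤ y.length,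
    circAct A ((List.range j).map (notG y)) (initSt (y.length + 1)) = bst (stJ y j) := by
  intro j
  induction j with
  | zero =>
    intro _
    have : (stJ y 0 : Fin (y.length + 1) → Bool) = fun _ => false := by
      funext i
      unfold stJ
      have : ¬ (1 ≤ i.1 ∧ i.1 ≤ 0) := by omega
      rw [decide_eq_false this, Bool.false_and]
    rw [this]
    rfl
  | succ j ih =>
    intro hj
    rw [List.range_succ, List.map_append, circAct_append, ih (by omega)]
    show gateAct A (notG y j) (bst (stJ y j)) = _
    unfold notG
    show (fun s => bst (stJ y j) (flipIf _ _ s)) = _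
    rw [bst_flip]
    congr 1
    funext i
    by_cases hy : y.getD j false = true
    · simp only [hy, if_true]
      have hlt : j + 1 < y.length + 1 := by omega
      unfold flipIf
      simp only [hlt, dite_true, List.all_nil]
      by_cases hi : i = ⟨j + 1, hlt⟩
      · subst hi
        simp only [Function.update_self, Bool.xor_true]
        have e1 : stJ y j (⟨j + 1, hlt⟩ : Fin (y.length + 1)) = false := by
          unfold stJ
          rw [decide_eq_false (by simp), Bool.false_and]
        have e2 : stJ y (j + 1) (⟨j + 1, hlt⟩ : Fin (y.length + 1)) = true := by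
          unfold stJ
          rw [decide_eq_true (by simp), Bool.true_and]
          show y.getD (j + 1 - 1) false = true
          rw [Nat.add_sub_cancel]; exact hy
        rw [e1, e2]; rfl
      · rw [Function.update_of_ne hi]
        unfold stJ
        have hne : i.1 ≠ j + 1 := fun h => hi (Fin.ext h)
        have : (1 ≤ i.1 ∧ i.1 ≤ j) ↔ (1 ≤ i.1 ∧ i.1 ≤ j + 1) := by omega
        simp only [this]
    · simp only [hy, if_false, Bool.false_eq_true]
      have hlt : ¬ (y.length + 1 < y.length + 1) := by omega
      unfold flipIf
      simp only [hlt, dite_false]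
      unfold stJ
      by_cases hi : i.1 = j + 1
      · have h1 : ¬ (1 ≤ i.1 ∧ i.1 ≤ j) := by omega
        have h2 : y.getD (i.1 - 1) false = false := by
          rw [hi]
          simpa using hy
        rw [h2]; simp
      · have : (1 ≤ i.1 ∧ i.1 ≤ j) ↔ (1 ≤ i.1 ∧ i.1 ≤ j + 1) := by omega
        simp only [this]

theorem read_back (y : List Bool) (h0 : 0 < y.length + 1) (b : Bool) :
    ((List.range y.length).map (fun i => i + 1)).map
      (rd (Function.update (stJ y y.length : Fin (y.length + 1) → Bool) ⟨0, h0⟩ b)) = y := by
  rw [List.map_map]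
  apply List.ext_getElem
  · simp
  · intro i h1 h2
    rw [List.getElem_map, List.getElem_range]
    show rd _ (i + 1) = _
    unfold rd
    have hlt : i + 1 < y.length + 1 := by omega
    simp only [hlt, dite_true]
    rw [Function.update_of_ne (by intro h; have := congrArg Fin.val h; simp at this)]
    unfold stJ
    rw [decide_eq_true (by constructor <;> simp <;> omega), Bool.true_and]
    show y.getD (i + 1 - 1) false = _
    rw [Nat.add_sub_cancel, List.getD_eq_getElem _ _ h2]

theorem accProb_ask (A : Oracle) (y : List Bool) :
    accProb A (askC y) = if A y then 1 else 0 := by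
  have key : ∀ m, m = y.length + 1 → (∑ s : Fin m → Bool,
      if rd s 0 then circAct A (askC y).2 (initSt m) s ^ 2 else 0) = if A y then (1 : ℝ) else 0 := by
    rintro m rfl
    have h0 : 0 < y.length + 1 := by omega
    have h1 : circAct A (askC y).2 (initSt (y.length + 1)) =
        bst (Function.update (stJ y y.length) ⟨0, h0⟩ (A y)) := by
      show circAct A ((List.range y.length).map (notG y) ++ _) _ = _
      rw [circAct_append, act_nots A y _ le_rfl]
      show (fun s => bst (stJ y y.length) (flipIf _ _ s)) = _
      rw [bst_flip]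
      congr 1
      unfold flipIf
      simp only [h0, dite_true]
      rw [read_back]
      have : stJ y y.length (⟨0, h0⟩ : Fin (y.length + 1)) = false := by
        unfold stJ
        rw [decide_eq_false (by simp), Bool.false_and]
      rw [this, Bool.false_xor]
    rw [h1]
    rw [Finset.sum_eq_single (Function.update (stJ y y.length) ⟨0, h0⟩ (A y))]
    · unfold rd bst
      simp only [h0, dite_true, Function.update_self, if_true]
      cases A y <;> simp
    · intro s _ hs
      unfold bst
      rw [if_neg hs]; simp
    · intro h; exact absurd (Finset.mem_univ _) h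
  exact key _ (by simp [askC])

theorem isBQP_of_reduces {A : Oracle} {L : Set (List Bool)} (h : Reduces L {x | A x = true}) :
    IsBQP A L := by
  obtain ⟨F, hF, hL⟩ := h
  refine ⟨fun x => askC (F x), polyTime_bits (poly_askC.comp (poly_of_polyTime hF)), fun x => ?_⟩
  rw [accProb_ask]
  have h1 : x ∈ L ↔ A (F x) = true := hL x
  refine ⟨fun hx => ?_, fun hx => ?_⟩
  · rw [if_pos (h1.1 hx)]; norm_num
  · rw [if_neg (fun h => hx (h1.2 h))]; norm_num

theorem IsBQP.withAdvice {A : Oracle} {L : Set (List Bool)} (h : IsBQP A L) :
    WithAdvice (IsBQP A) L := by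
  obtain ⟨C, hC, hL⟩ := h
  have h1 : Poly (fun z : List Bool => (unpair z).1) := Poly.fst poly_unpair
  refine ⟨{y | (unpair y).1 ∈ L}, fun _ => [], 0, ⟨fun y => C (unpair y).1, ?_, fun y => hL _⟩,
    fun n => by simp, fun x => ?_⟩
  · exact polyTime_of_poly_list ((poly_of_polyTime hC).comp h1)
  · show _ ↔ (unpair (pairBits x [])).1 ∈ L
    rw [unpair_pairBits]

end Pool.Agent.H620R2.Gauge
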